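import Mathlib
import Pool.Agent.Helper35.MS.StH

/-!
Project MS, module SCL: scaling of `H`, `|A|²`, `Z` at one time.
-/

set_option autoImplicit false

namespace Helper26.MS

open Helper35.MS Helper35.PI Helper35.PI2 Helper32.CL
open scoped ContDiff Manifold Topology ENNReal BigOperators
open MeasureTheory Set Filter

section scl

variable {n N : ℕ}

lemma scl_dv1 (f : EE n → EE N) (c : ℝ) (hc : c ≠ 0) (x : EE n) (i : Fin n) :
    dv1 (fun y => c • f y) x i = c • dv1 f x i := by
  have : Invertible c := invertibleOfNonzero hc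
  have h : fderiv ℝ (fun y => c • f y) x = c • fderiv ℝ f x :=
    fderiv_const_smul_of_invertible c
  unfold dv1
  rw [h]
  rfl

lemma scl_dv2 (f : EE n → EE N) (c : ℝ) (hc : c ≠ 0) (x : EE n) (i j : Fin n) :
    dv2 (fun y => c • f y) x i j = c • dv2 f x i j := by
  have : Invertible c := invertibleOfNonzero hc
  have h : (fun y => fderiv ℝ (fun y => c • f y) y (ee j)) =
      fun y => c • (fderiv ℝ f y (ee j)) := by
    funext y
    exact scl_dv1 f c hc y j
  have h2 : fderiv ℝ (fun y => c • (fderiv ℝ f y (ee j))) x =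
      c • fderiv ℝ (fun y => fderiv ℝ f y (ee j)) x :=
    fderiv_const_smul_of_invertible (f := fun y => fderiv ℝ f y (ee j)) c
  unfold dv2
  rw [h, h2]
  rfl

lemma scl_gram (f : EE n → EE N) (c : ℝ) (hc : c ≠ 0) (x : EE n) :
    gram (fun y => c • f y) x = (c ^ 2) • gram f x := by
  ext i j
  simp only [gram, Matrix.of_apply, Matrix.smul_apply, scl_dv1 f c hc, inner_smul_left,
    inner_smul_right, smul_eq_mul, RCLike.conj_to_real]
  ring

lemma scl_inv (A : Matrix (Fin n) (Fin n) ℝ) (k : ℝ) (hk : k ≠ 0) :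
    (k • A)⁻¹ = k⁻¹ • A⁻¹ := by
  have hI : Invertible k := invertibleOfNonzero hk
  by_cases h : IsUnit A.det
  · rw [Matrix.inv_smul A k h, invOf_eq_inv]
  · have h2 : ¬ IsUnit (k • A).det := by
      rw [Matrix.det_smul]
      intro h3
      exact h (isUnit_of_mul_isUnit_right h3)
    rw [Matrix.nonsing_inv_apply_not_isUnit A h, Matrix.nonsing_inv_apply_not_isUnit _ h2,
      smul_zero]

lemma scl_ginv (f : EE n → EE N) (c : ℝ) (hc : c ≠ 0) (x : EE n) (i j : Fin n) :
    (gram (fun y => c • f y) x)⁻¹ i j = (c ^ 2)⁻¹ * (gram f x)⁻¹ i j := by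
  rw [scl_gram f c hc, scl_inv _ _ (pow_ne_zero 2 hc)]
  rfl

lemma scl_nrm (f : EE n → EE N) (c : ℝ) (hc : c ≠ 0) (x : EE n) (v : EE N) :
    nrm (fun y => c • f y) x (c • v) = c • nrm f x v := by
  unfold nrm
  rw [smul_sub]
  congr 1
  rw [Finset.smul_sum]
  refine Finset.sum_congr rfl fun k _ => ?_
  rw [Finset.smul_sum]
  refine Finset.sum_congr rfl fun l _ => ?_
  rw [scl_ginv f c hc, scl_dv1 f c hc, scl_dv1 f c hc, inner_smul_left, inner_smul_right,
    smul_smul, smul_smul]
  congr 1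
  simp only [RCLike.conj_to_real]
  field_simp

lemma scl_sff (f : EE n → EE N) (c : ℝ) (hc : c ≠ 0) (x : EE n) (i j : Fin n) :
    sff (fun y => c • f y) x i j = c • sff f x i j := by
  unfold sff
  rw [scl_dv2 f c hc, scl_nrm f c hc]

lemma scl_mcv (f : EE n → EE N) (c : ℝ) (hc : c ≠ 0) (x : EE n) :
    mcv (fun y => c • f y) x = (1 / c) • mcv f x := by
  unfold mcv
  rw [Finset.smul_sum]
  refine Finset.sum_congr rfl fun k _ => ?_
  rw [Finset.smul_sum]
  refine Finset.sum_congr rfl fun l _ => ?_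
  rw [scl_ginv f c hc, scl_sff f c hc, smul_smul, smul_smul]
  congr 1
  field_simp

lemma scl_nsq (f : EE n → EE N) (c : ℝ) (hc : c ≠ 0) (x : EE n) :
    nsq (fun y => c • f y) x = nsq f x / c ^ 2 := by
  unfold nsq
  rw [Finset.sum_div]
  refine Finset.sum_congr rfl fun i _ => ?_
  rw [Finset.sum_div]
  refine Finset.sum_congr rfl fun j _ => ?_
  rw [Finset.sum_div]
  refine Finset.sum_congr rfl fun k _ => ?_
  rw [Finset.sum_div]
  refine Finset.sum_congr rfl fun l _ => ?_
  rw [scl_ginv f c hc, scl_ginv f c hc, scl_sff f c hc, scl_sff f c hc, inner_smul_left,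
    inner_smul_right]
  simp only [RCLike.conj_to_real]
  field_simp

lemma scl_zsq (f : EE n → EE N) (c : ℝ) (hc : c ≠ 0) (x : EE n) :
    zsq (fun y => c • f y) x = zsq f x / c ^ 4 := by
  unfold zsq
  rw [Finset.sum_div]
  refine Finset.sum_congr rfl fun i _ => ?_
  rw [Finset.sum_div]
  refine Finset.sum_congr rfl fun j _ => ?_
  rw [Finset.sum_div]
  refine Finset.sum_congr rfl fun k _ => ?_
  rw [Finset.sum_div]
  refine Finset.sum_congr rfl fun l _ => ?_
  rw [scl_ginv f c hc, scl_ginv f c hc, scl_sff f c hc, scl_sff f c hc, scl_mcv f c hc,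
    inner_smul_left, inner_smul_right, inner_smul_left, inner_smul_right]
  simp only [RCLike.conj_to_real]
  field_simp

end scl

theorem hSCL : StSCL := by
  intro n N M _ _ F G t s c hc hFG q hLI
  have hc0 : c ≠ 0 := hc.ne'
  have hloc : loc (n := n) G q s = fun y => c • loc (n := n) F q t y := by
    funext y
    exact hFG _
  refine ⟨?_, ?_, ?_, ?_⟩
  · rw [hloc]
    unfold LI at hLI ⊢
    have h1 : (fun i : Fin n => dv1 (fun y => c • loc (n := n) F q t y) (chartAt (EE n) q q) i) =
        fun i : Fin n => (fun _ : Fin n => Units.mk0 c hc0) i •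
          dv1 (loc (n := n) F q t) (chartAt (EE n) q q) i := by
      funext i
      rw [scl_dv1 _ c hc0]
      rfl
    rw [h1]
    exact hLI.units_smul _
  · unfold HH
    rw [hloc, scl_mcv _ c hc0]
  · unfold AA
    rw [hloc, scl_nsq _ c hc0]
  · unfold ZF
    rw [hloc, scl_zsq _ c hc0]

end Helper26.MS
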