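import Mathlib
import Pool.Agent.Helper35.MS.StK

/-!
Project MS, module RND: nearly umbilical surfaces are close to a round sphere.
-/

set_option autoImplicit false

namespace Helper26.MS

open Helper35.MS Helper35.PI Helper35.PI2 Helper32.CL
open scoped ContDiff Manifold Topology ENNReal BigOperators
open MeasureTheory Set Filter

/-- linear isometry onto a three dimensional subspace -/
lemma rnd_iso {N : ℕ} (W : Submodule ℝ (EE N)) (hW : Module.finrank ℝ W = 3) :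
    ∃ L : EE 3 →ₗᵢ[ℝ] EE N, (∀ y, L y ∈ W) ∧ ∀ w ∈ W, ∃ y, L y = w := by
  obtain ⟨b⟩ : Nonempty (OrthonormalBasis (Fin 3) ℝ W) :=
    ⟨(stdOrthonormalBasis ℝ W).reindex (finCongr hW)⟩
  refine ⟨W.subtypeₗᵢ.comp b.repr.symm.toLinearIsometry, fun y => ?_, fun w hw => ?_⟩
  · simp
  · refine ⟨b.repr ⟨w, hw⟩, ?_⟩
    simp

/-- the frame at the base point -/
lemma rnd_core1 {N : ℕ} (T : Submodule ℝ (EE N)) (hT : Module.finrank ℝ T = 2) (f₀ : EE N)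
    (ε : ℝ) (hε : 0 < ε) (hε1 : ε ≤ 1 / 1000) (hf1 : 1 - ε ≤ ‖f₀‖) (hf2 : ‖f₀‖ ≤ 1 + ε)
    (hfT : ∀ w ∈ T, |(inner ℝ f₀ w : ℝ)| ≤ ε / 2 * ‖w‖) :
    ∃ L : EE 3 →ₗᵢ[ℝ] EE N, (∀ w ∈ T, ∃ y, L y = w) ∧ (∃ y, L y = f₀) ∧
      ∀ y, ‖y‖ = 1 → ∀ v ∈ T, (∀ w ∈ T, (inner ℝ v w : ℝ) = inner ℝ (L y) w) →
        1 - 5 * ε ≤ ‖v‖ ^ 2 + (inner ℝ f₀ (L y) : ℝ) ^ 2 := by
  obtain ⟨t₀, ht₀, n₀, hn₀, hfe⟩ := T.exists_add_mem_mem_orthogonal f₀
  have hno : ∀ w ∈ T, (inner ℝ n₀ w : ℝ) = 0 := fun w hw => T.inner_left_of_mem_orthogonal hw hn₀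
  have hno' : ∀ w ∈ T, (inner ℝ w n₀ : ℝ) = 0 := fun w hw => T.inner_right_of_mem_orthogonal hw hn₀
  have ht1 : ‖t₀‖ ≤ ε / 2 := by
    have h1 := hfT t₀ ht₀
    rw [hfe, inner_add_left, hno t₀ ht₀, add_zero, real_inner_self_eq_norm_sq,
      abs_of_nonneg (sq_nonneg _)] at h1
    by_contra hcon
    push Not at hcon
    nlinarith
  have hnn : ‖f₀‖ ^ 2 = ‖t₀‖ ^ 2 + ‖n₀‖ ^ 2 := by
    have h1 := @norm_add_sq_real _ _ _ t₀ n₀
    rw [← hfe, hno' t₀ ht₀] at h1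
    linarith
  have hn2 : 1 - 3 * ε ≤ ‖n₀‖ ^ 2 := by
    have h1 : (1 - ε) ^ 2 ≤ ‖f₀‖ ^ 2 := pow_le_pow_left₀ (by linarith) hf1 2
    have h2 : ‖t₀‖ ^ 2 ≤ (ε / 2) ^ 2 := pow_le_pow_left₀ (norm_nonneg _) ht1 2
    nlinarith
  have hn3 : ‖n₀‖ ≤ 1 + ε := by
    have h1 : ‖n₀‖ ^ 2 ≤ (1 + ε) ^ 2 := by
      have h2 : ‖f₀‖ ^ 2 ≤ (1 + ε) ^ 2 := pow_le_pow_left₀ (norm_nonneg _) hf2 2
      nlinarith [sq_nonneg ‖t₀‖]
    exact le_of_sq_le_sq h1 (by linarith)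
  have hnT : f₀ ∉ T := by
    intro hmem
    have h1 : n₀ ∈ T := by
      have h2 : n₀ = f₀ - t₀ := by rw [hfe]; abel
      rw [h2]
      exact T.sub_mem hmem ht₀
    have h3 := hno n₀ h1
    rw [real_inner_self_eq_norm_sq] at h3
    nlinarith
  have hW3 : Module.finrank ℝ (T ⊔ Submodule.span ℝ {f₀} : Submodule ℝ (EE N)) = 3 := by
    have hf0 : f₀ ≠ 0 := fun h => hnT (h ▸ T.zero_mem)
    have h1 := Submodule.finrank_sup_add_finrank_inf_eq T (Submodule.span ℝ {f₀})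
    have h2 : T ⊓ Submodule.span ℝ {f₀} = ⊥ := by
      rw [eq_bot_iff]
      rintro x ⟨hx1, hx2⟩
      obtain ⟨s, rfl⟩ := Submodule.mem_span_singleton.1 hx2
      by_cases hs : s = 0
      · rw [hs, zero_smul]
        exact Submodule.zero_mem _
      · exact absurd ((T.smul_mem_iff hs).1 hx1) hnT
    rw [h2, finrank_bot, hT, finrank_span_singleton hf0] at h1
    omega
  obtain ⟨L, hL1, hL2⟩ := rnd_iso _ hW3
  refine ⟨L, fun w hw => hL2 w (Submodule.mem_sup_left hw),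
    hL2 f₀ (Submodule.mem_sup_right (Submodule.mem_span_singleton_self f₀)), ?_⟩
  intro y hy v hv hvw
  obtain ⟨a', ha', b', hb', hab⟩ := Submodule.mem_sup.1 (hL1 y)
  obtain ⟨s, rfl⟩ := Submodule.mem_span_singleton.1 hb'
  have hLn : ‖L y‖ = 1 := by rw [L.norm_map, hy]
  obtain ⟨a, ha⟩ : ∃ a, a = a' + s • t₀ := ⟨_, rfl⟩
  have haT : a ∈ T := by
    rw [ha]
    exact T.add_mem ha' (T.smul_mem s ht₀)
  have hLa : L y = a + s • n₀ := by
    rw [← hab, ha, hfe, smul_add]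
    abel
  have hva : v = a := by
    have h1 : v - a ∈ T := T.sub_mem hv haT
    have h2 := hvw (v - a) h1
    rw [hLa, inner_add_left, inner_smul_left, hno (v - a) h1, mul_zero, add_zero] at h2
    have h3 : (inner ℝ (v - a) (v - a) : ℝ) = 0 := by
      rw [inner_sub_left, h2, sub_self]
    exact sub_eq_zero.1 (inner_self_eq_zero.1 h3)
  have hsum : ‖a‖ ^ 2 + s ^ 2 * ‖n₀‖ ^ 2 = 1 := by
    have h1 := @norm_add_sq_real _ _ _ a (s • n₀)
    rw [← hLa, hLn, inner_smul_right, hno' a haT, norm_smul, Real.norm_eq_abs, mul_pow,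
      sq_abs] at h1
    linarith
  have hin : (inner ℝ f₀ (L y) : ℝ) = inner ℝ f₀ a + s * ‖n₀‖ ^ 2 := by
    rw [hLa, inner_add_right, inner_smul_right]
    congr 1
    rw [hfe, inner_add_left, hno' t₀ ht₀, zero_add, real_inner_self_eq_norm_sq]
  have ha1 : ‖a‖ ≤ 1 := by
    have h1 : ‖a‖ ^ 2 ≤ 1 ^ 2 := by nlinarith [mul_nonneg (sq_nonneg s) (sq_nonneg ‖n₀‖)]
    exact le_of_sq_le_sq h1 zero_le_one
  have hx : |(inner ℝ f₀ a : ℝ)| ≤ ε / 2 := by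
    have h1 := hfT a haT
    nlinarith [norm_nonneg a]
  rw [hva, hin]
  obtain ⟨x, hxd⟩ : ∃ x : ℝ, x = inner ℝ f₀ a := ⟨_, rfl⟩
  obtain ⟨ν, hν⟩ : ∃ ν : ℝ, ν = ‖n₀‖ := ⟨_, rfl⟩
  have hν0 : 0 ≤ ν := by rw [hν]; exact norm_nonneg _
  rw [← hxd] at hx ⊢
  rw [← hν] at hsum hn2 hn3 ⊢
  obtain ⟨β, hβ⟩ : ∃ β : ℝ, β = s * ν := ⟨_, rfl⟩
  have hβ2 : ‖a‖ ^ 2 + β ^ 2 = 1 := by rw [hβ, mul_pow]; exact hsum
  have hβ1 : |β| ≤ 1 := by
    rw [abs_le_one_iff_mul_self_le_one]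
    nlinarith [sq_nonneg ‖a‖]
  have e1 : s * ν ^ 2 = β * ν := by rw [hβ]; ring
  rw [e1]
  have e2 : (x + β * ν) ^ 2 = x ^ 2 + 2 * (x * (β * ν)) + β ^ 2 * ν ^ 2 := by ring
  have e3 : |x * (β * ν)| ≤ ε / 2 * (1 * (1 + ε)) := by
    rw [abs_mul, abs_mul, abs_of_nonneg hν0]
    exact mul_le_mul hx (mul_le_mul hβ1 hn3 hν0 zero_le_one) (by positivity) (by linarith)
  have e4 := neg_abs_le (x * (β * ν))
  have e5 : β ^ 2 ≤ 1 := by nlinarith [sq_nonneg ‖a‖]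
  have e6 : β ^ 2 - 3 * ε * β ^ 2 ≤ β ^ 2 * ν ^ 2 := by
    nlinarith [mul_le_mul_of_nonneg_left hn2 (sq_nonneg β)]
  have e7 : 3 * ε * β ^ 2 ≤ 3 * ε := by nlinarith
  rw [e2]
  nlinarith [sq_nonneg x]

/-- points whose component orthogonal to the range is small -/
lemma rnd_core2 {N : ℕ} (L : EE 3 →ₗᵢ[ℝ] EE N) (f : EE N)
    (ε : ℝ) (hε : 0 < ε) (hε1 : ε ≤ 1 / 1000) (hf1 : 1 - ε ≤ ‖f‖) (hf2 : ‖f‖ ≤ 1 + ε)
    (h : ∀ e : EE N, ‖e‖ = 1 → (∀ y, (inner ℝ (L y) e : ℝ) = 0) → (inner ℝ f e : ℝ) ^ 2 ≤ 50 * ε) :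
    ∃ y : EE 3, ‖y‖ = 1 ∧ ‖f - L y‖ ^ 2 ≤ 110 * ε := by
  obtain ⟨w, ⟨y₁, hy₁⟩, z, hz, hfe⟩ :=
    (LinearMap.range L.toLinearMap).exists_add_mem_mem_orthogonal f
  have hzo : ∀ y, (inner ℝ (L y) z : ℝ) = 0 := fun y =>
    (LinearMap.range L.toLinearMap).inner_right_of_mem_orthogonal ⟨y, rfl⟩ hz
  have hy₁' : L y₁ = w := hy₁
  have hwz : (inner ℝ w z : ℝ) = 0 := by rw [← hy₁']; exact hzo y₁
  have hz2 : ‖z‖ ^ 2 ≤ 50 * ε := by
    by_cases hz0 : z = 0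
    · rw [hz0, norm_zero]
      nlinarith
    · have hzn : ‖z‖ ≠ 0 := norm_ne_zero_iff.2 hz0
      have h1 := h ((1 / ‖z‖) • z) (by
        rw [norm_smul, Real.norm_eq_abs, abs_of_nonneg (by positivity)]
        field_simp) (fun y => by rw [inner_smul_right, hzo, mul_zero])
      rw [inner_smul_right, hfe, inner_add_left, hwz, zero_add, real_inner_self_eq_norm_sq] at h1
      have h2 : 1 / ‖z‖ * ‖z‖ ^ 2 = ‖z‖ := by field_simp
      rwa [h2] at h1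
  have hnn : ‖f‖ ^ 2 = ‖w‖ ^ 2 + ‖z‖ ^ 2 := by
    have h1 := @norm_add_sq_real _ _ _ w z
    rw [← hfe, hwz] at h1
    linarith
  have hw2 : 1 - 52 * ε ≤ ‖w‖ ^ 2 := by
    have h1 : (1 - ε) ^ 2 ≤ ‖f‖ ^ 2 := pow_le_pow_left₀ (by linarith) hf1 2
    nlinarith
  have hw3 : ‖w‖ ^ 2 ≤ 1 + 3 * ε := by
    have h1 : ‖f‖ ^ 2 ≤ (1 + ε) ^ 2 := pow_le_pow_left₀ (norm_nonneg _) hf2 2
    nlinarith [sq_nonneg ‖z‖]
  have hwp : 0 < ‖w‖ := by
    by_contra hcon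
    have h1 : ‖w‖ = 0 := le_antisymm (not_lt.1 hcon) (norm_nonneg _)
    rw [h1] at hw2
    nlinarith
  refine ⟨(1 / ‖w‖) • y₁, ?_, ?_⟩
  · rw [norm_smul, Real.norm_eq_abs, abs_of_nonneg (by positivity), ← L.norm_map y₁, hy₁']
    field_simp
  · have e1 : f - L ((1 / ‖w‖) • y₁) = (1 - 1 / ‖w‖) • w + z := by
      rw [map_smul, hy₁', hfe, sub_smul, one_smul]
      abel
    have e2 : ‖f - L ((1 / ‖w‖) • y₁)‖ ^ 2 = (‖w‖ - 1) ^ 2 + ‖z‖ ^ 2 := by
      have h1 := @norm_add_sq_real _ _ _ ((1 - 1 / ‖w‖) • w) z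
      rw [← e1, inner_smul_left, hwz, norm_smul, Real.norm_eq_abs, mul_pow, sq_abs] at h1
      have h2 : (1 - 1 / ‖w‖) ^ 2 * ‖w‖ ^ 2 = (‖w‖ - 1) ^ 2 := by
        field_simp
      rw [h2] at h1
      linarith
    rw [e2]
    have e3 : (‖w‖ - 1) ^ 2 ≤ |‖w‖ ^ 2 - 1| := by
      have h1 : ‖w‖ ^ 2 - 1 = (‖w‖ - 1) * (‖w‖ + 1) := by ring
      rw [h1, abs_mul, abs_of_nonneg (by positivity : (0 : ℝ) ≤ ‖w‖ + 1), ← sq_abs (‖w‖ - 1), pow_two]
      apply mul_le_mul_of_nonneg_left _ (abs_nonneg _)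
      rw [abs_le]
      constructor <;> linarith
    have e4 : |‖w‖ ^ 2 - 1| ≤ 52 * ε := by
      rw [abs_le]
      constructor <;> linarith
    linarith

section geo

variable {N : ℕ} {M : Type} [TopologicalSpace M] [ChartedSpace (EE 2) M]

lemma rnd_gconst (F : M → ℝ → EE N) (t : ℝ) (a : ℝ) (q : M) :
    gdM 2 F t (fun _ => a) q = 0 := by
  unfold gdM
  simp

lemma rnd_dconst (F : M → ℝ → EE N) (t : ℝ) (e : EE N) (q : M) :
    dvg (n := 2) F (fun _ => e) q t = 0 := by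
  unfold dvg
  simp

lemma rnd_gmax (F : M → ℝ → EE N) (t : ℝ) (φ : M → ℝ) (q : M) (h : ∀ p, φ p ≤ φ q) :
    gdM 2 F t φ q = 0 := by
  have h1 : fderiv ℝ (fun y => φ ((chartAt (EE 2) q).symm y)) (chartAt (EE 2) q q) = 0 := by
    apply IsLocalMax.fderiv_eq_zero
    refine Filter.Eventually.of_forall fun y => ?_
    simp only [(chartAt (EE 2) q).left_inv (mem_chart_source (EE 2) q)]
    exact h _
  unfold gdM
  rw [h1]
  simp

lemma rnd_HHn (hNR : StNR) (F : M → ℝ → EE N) (t : ℝ) (q : M)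
    (hLI : LI (loc (n := 2) F q t) (chartAt (EE 2) q q)) (w : EE N)
    (hw : w ∈ TS (n := 2) F q t) : (inner ℝ (HH (n := 2) F q t) w : ℝ) = 0 := by
  have h1 := (hNR 2 N (loc (n := 2) F q t) (chartAt (EE 2) q q) hLI).1
  unfold TS at hw
  induction hw using Submodule.span_induction with
  | mem x hx =>
    obtain ⟨i, rfl⟩ := hx
    unfold HH mcv
    rw [sum_inner]
    refine Finset.sum_eq_zero fun k _ => ?_
    rw [sum_inner]
    refine Finset.sum_eq_zero fun l _ => ?_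
    rw [inner_smul_left]
    unfold sff
    rw [h1, mul_zero]
  | zero => exact inner_zero_right _
  | add x y _ _ hx hy => rw [inner_add_right, hx, hy, add_zero]
  | smul a x _ hx => rw [inner_smul_right, hx, mul_zero]

end geo

theorem hRND (hGRE : StGRE) (hOSC : StOSC) (hFVJ : StFVJ) (hMUJ : StMUJ) (hI4J : StI4J)
    (hNR : StNR) (hSIM : StSIM) : StRND := by
  intro η hη
  refine ⟨min (1 / 1000) (η ^ 2 / 200), by positivity, ?_⟩
  intro N M _ _ _ _ _ _ _ _ J F c χ hs t ht hH hθ hY hA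
  obtain ⟨ε, hεd⟩ : ∃ ε : ℝ, ε = min (1 / 1000) (η ^ 2 / 200) := ⟨_, rfl⟩
  rw [← hεd] at hH hθ hY hA
  have hε : 0 < ε := by rw [hεd]; positivity
  have hε1 : ε ≤ 1 / 1000 := by rw [hεd]; exact min_le_left _ _
  have hεη : 200 * ε ≤ η ^ 2 := by
    have : ε ≤ η ^ 2 / 200 := by rw [hεd]; exact min_le_right _ _
    linarith
  have himm := hs.mcf
  have hLI : ∀ q, LI (loc (n := 2) F q t) (chartAt (EE 2) q q) := fun q => himm.imm q t ht
  have hHn : ∀ q, ∀ w ∈ TS (n := 2) F q t, (inner ℝ (HH (n := 2) F q t) w : ℝ) = 0 :=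
    fun q w hw => rnd_HHn hNR F t q (hLI q) w hw
  -- the tangential component of `F`
  have hfT : ∀ q, ∀ w ∈ TS (n := 2) F q t, |(inner ℝ (F q t) w : ℝ)| ≤ ε / 2 * ‖w‖ := by
    intro q w hw
    have h1 : (inner ℝ (HH (n := 2) F q t + (2 : ℝ) • F q t) w : ℝ) = 2 * inner ℝ (F q t) w := by
      rw [inner_add_left, hHn q w hw, zero_add, inner_smul_left]
      rfl
    have h2 := abs_real_inner_le_norm (HH (n := 2) F q t + (2 : ℝ) • F q t) w
    rw [h1, abs_mul, abs_two] at h2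
    have h3 := mul_le_mul_of_nonneg_right (hH q) (norm_nonneg w)
    linarith
  -- the norm of `F`
  have hFn : ∀ q, 1 - ε ≤ ‖F q t‖ ∧ ‖F q t‖ ≤ 1 + ε := by
    intro q
    have h1 := hY q
    unfold YF at h1
    obtain ⟨b, hb⟩ : ∃ b, b = ‖HH (n := 2) F q t‖ := ⟨_, rfl⟩
    have hb0 : 0 ≤ b := by rw [hb]; exact norm_nonneg _
    rw [← hb] at h1
    have h2 : |b - 2| ≤ ε / 2 := by
      have h3 : b ^ 2 - 4 = (b - 2) * (b + 2) := by ring
      rw [h3, abs_mul, abs_of_nonneg (by linarith : (0 : ℝ) ≤ b + 2)] at h1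
      nlinarith [abs_nonneg (b - 2)]
    have h4 : |b - 2 * ‖F q t‖| ≤ ε := by
      have h5 := abs_norm_sub_norm_le (HH (n := 2) F q t) (-((2 : ℝ) • F q t))
      rw [norm_neg, norm_smul, sub_neg_eq_add, ← hb] at h5
      have h6 : ‖(2 : ℝ)‖ = 2 := by norm_num
      rw [h6] at h5
      exact h5.trans (hH q)
    rw [abs_le] at h2 h4
    constructor <;> linarith [h2.1, h2.2, h4.1, h4.2]
  -- the functions `g`
  have hg : ∀ e : EE N, ‖e‖ = 1 → ∃ v : M → EE N,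
      (∀ q, v q = gdM 2 F t (fun p => (inner ℝ (F p t) e : ℝ)) q) ∧
      (∀ q, v q ∈ TS (n := 2) F q t) ∧
      (∀ q, ∀ w ∈ TS (n := 2) F q t, (inner ℝ (v q) w : ℝ) = inner ℝ e w) ∧
      ∀ p q, (‖v p‖ ^ 2 + (inner ℝ (F p t) e : ℝ) ^ 2) -
        (‖v q‖ ^ 2 + (inner ℝ (F q t) e : ℝ) ^ 2) ≤ 50 * ε := by
    intro e he
    obtain ⟨v, hv⟩ : ∃ v : M → EE N, v = fun q => gdM 2 F t (fun p => (inner ℝ (F p t) e : ℝ)) q :=
      ⟨_, rfl⟩
    obtain ⟨g, hgd⟩ : ∃ g : M → ℝ, g = fun q => ‖v q‖ ^ 2 + (inner ℝ (F q t) e : ℝ) ^ 2 := ⟨_, rfl⟩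
    have hvq : ∀ q, v q = gdM 2 F t (fun p => (inner ℝ (F p t) e : ℝ)) q := fun q => by rw [hv]
    have hgg : g = (fun q => ‖gdM 2 F t (fun p => (inner ℝ (F p t) e : ℝ)) q‖ ^ 2
      + (inner ℝ (F q t) e : ℝ) ^ 2) := by rw [hgd, hv]
    obtain ⟨hsm, hgr, hTS⟩ := hGRE N M J F himm t ht ε hε.le hH hθ e he g hgg
    have hTS1 : ∀ q, v q ∈ TS (n := 2) F q t := fun q => by rw [hvq]; exact (hTS q).1
    have hTS2 : ∀ q, ∀ w ∈ TS (n := 2) F q t, (inner ℝ (v q) w : ℝ) = inner ℝ e w :=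
      fun q w hw => by rw [hvq]; exact (hTS q).2 w hw
    have hb : ∀ q, 0 ≤ g q ∧ g q ≤ 2 := by
      intro q
      have hgq : g q = ‖v q‖ ^ 2 + (inner ℝ (F q t) e : ℝ) ^ 2 := by rw [hgd]
      rw [hgq]
      refine ⟨by positivity, ?_⟩
      have h1 := hTS2 q (v q) (hTS1 q)
      rw [real_inner_self_eq_norm_sq] at h1
      have h2 := @norm_sub_sq_real _ _ _ e (v q)
      rw [← h1, he] at h2
      have h3 : (inner ℝ (F q t) e : ℝ) = inner ℝ (F q t) (v q) + inner ℝ (F q t) (e - v q) := by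
        rw [← inner_add_right]
        congr 1
        abel
      have h4 := hfT q (v q) (hTS1 q)
      have h5 := abs_real_inner_le_norm (F q t) (e - v q)
      rw [h3]
      obtain ⟨x, hx⟩ : ∃ x : ℝ, x = inner ℝ (F q t) (v q) := ⟨_, rfl⟩
      obtain ⟨y, hy⟩ : ∃ y : ℝ, y = inner ℝ (F q t) (e - v q) := ⟨_, rfl⟩
      obtain ⟨a, ha⟩ : ∃ a : ℝ, a = ‖v q‖ := ⟨_, rfl⟩
      obtain ⟨b, hb⟩ : ∃ b : ℝ, b = ‖e - v q‖ := ⟨_, rfl⟩
      have ha0 : 0 ≤ a := by rw [ha]; exact norm_nonneg _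
      have hb0 : 0 ≤ b := by rw [hb]; exact norm_nonneg _
      rw [← hx] at h4 ⊢
      rw [← hy] at h5 ⊢
      rw [← ha] at h4 h2 ⊢
      rw [← hb] at h2 h5
      have hab : a ^ 2 + b ^ 2 = 1 := by linarith
      have ha1 : a ≤ 1 := by nlinarith
      have hb1 : b ≤ 1 := by nlinarith
      have h6 : |x| ≤ ε / 2 := by nlinarith
      have h7 : |y| ≤ (1 + ε) * b :=
        h5.trans (mul_le_mul_of_nonneg_right (hFn q).2 hb0)
      have h8 : |x + y| ≤ ε / 2 + (1 + ε) * b := (abs_add_le x y).trans (add_le_add h6 h7)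
      have h9 : (x + y) ^ 2 ≤ (ε / 2 + (1 + ε) * b) ^ 2 := by
        rw [← sq_abs (x + y)]
        exact pow_le_pow_left₀ (abs_nonneg _) h8 2
      have h10 : (ε / 2 + (1 + ε) * b) ^ 2 ≤ b ^ 2 + 1 := by
        have h11 : b ^ 2 ≤ 1 := by nlinarith
        have h12 : ε * b ≤ ε := by nlinarith
        have h13 : ε ^ 2 ≤ ε := by nlinarith
        have h14 : ε * b ^ 2 ≤ ε := by nlinarith
        have h15 : ε ^ 2 * b ≤ ε := by nlinarith
        have h16 : ε ^ 2 * b ^ 2 ≤ ε := by nlinarith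
        nlinarith
      linarith
    refine ⟨v, hvq, hTS1, hTS2, fun p q => ?_⟩
    have h1 := hOSC N M J F c χ hs t ht ε (3 * ε) hε.le (by linarith) (by positivity) hY hA g hsm
      hb hgr p q
    have h2 : g p - g q = (‖v p‖ ^ 2 + (inner ℝ (F p t) e : ℝ) ^ 2) -
        (‖v q‖ ^ 2 + (inner ℝ (F q t) e : ℝ) ^ 2) := by rw [hgd]
    rw [← h2]
    have h3 := le_abs_self (g p - g q)
    linarith
  -- the base point
  obtain ⟨p₀⟩ : Nonempty M := inferInstance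
  have hfr : Module.finrank ℝ (TS (n := 2) F p₀ t) = 2 := by
    unfold TS
    rw [finrank_span_eq_card (himm.imm p₀ t ht), Fintype.card_fin]
  obtain ⟨L, hLT, ⟨y₀, hy₀⟩, hLg⟩ := rnd_core1 (TS (n := 2) F p₀ t) hfr (F p₀ t) ε hε hε1
    (hFn p₀).1 (hFn p₀).2 (hfT p₀)
  have hηle : ∀ z : EE N, ‖z‖ ^ 2 ≤ 200 * ε → ‖z‖ ≤ η := by
    intro z hz
    exact le_of_sq_le_sq (hz.trans hεη) hη.le
  refine ⟨L, fun q => ?_, fun y hy => ?_⟩
  · obtain ⟨y, hy1, hy2⟩ := rnd_core2 L (F q t) ε hε hε1 (hFn q).1 (hFn q).2 (by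
      intro e he heL
      obtain ⟨v, -, hv1, hv2, hv3⟩ := hg e he
      have h1 : v p₀ = 0 := by
        have h2 := hv2 p₀ (v p₀) (hv1 p₀)
        obtain ⟨y₁, hy₁⟩ := hLT (v p₀) (hv1 p₀)
        have h3 : (inner ℝ e (v p₀) : ℝ) = 0 := by
          rw [real_inner_comm, ← hy₁]
          exact heL y₁
        rw [h3] at h2
        exact inner_self_eq_zero.1 h2
      have h4 : (inner ℝ (F p₀ t) e : ℝ) = 0 := by
        rw [← hy₀]
        exact heL y₀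
      have h5 := hv3 q p₀
      rw [h1, h4, norm_zero] at h5
      nlinarith [sq_nonneg ‖v q‖])
    exact ⟨y, hy1, hηle _ (by linarith)⟩
  · have he : ‖L y‖ = 1 := by rw [L.norm_map, hy]
    obtain ⟨v, hvd, hv1, hv2, hv3⟩ := hg (L y) he
    have hp0 : 1 - 5 * ε ≤ ‖v p₀‖ ^ 2 + (inner ℝ (F p₀ t) (L y) : ℝ) ^ 2 :=
      hLg y hy (v p₀) (hv1 p₀) (hv2 p₀)
    obtain ⟨hcF, hcH, -, -⟩ := hI4J 2 N M J F himm
    have hline : Continuous (fun q : M => ((q, t) : M × ℝ)) := by fun_prop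
    have hFc : Continuous (fun q => F q t) := by
      have := hcF.comp_continuous hline (fun q => ⟨mem_univ _, ht⟩)
      exact this
    have hHc : Continuous (fun q => HH (n := 2) F q t) := by
      have := hcH.comp_continuous hline (fun q => ⟨mem_univ _, ht⟩)
      exact this
    have hφc : Continuous (fun q => (inner ℝ (F q t) (L y) : ℝ)) := hFc.inner continuous_const
    have hψc : Continuous (fun q => (inner ℝ (HH (n := 2) F q t) (L y) : ℝ)) :=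
      hHc.inner continuous_const
    obtain ⟨q, -, hq⟩ := isCompact_univ.exists_isMaxOn (univ_nonempty (α := M)) hφc.continuousOn
    have hqm : ∀ p, (inner ℝ (F p t) (L y) : ℝ) ≤ inner ℝ (F q t) (L y) := fun p => hq (mem_univ p)
    have hvq : v q = 0 := by
      rw [hvd]
      exact rnd_gmax F t _ q hqm
    have h1 := hv3 p₀ q
    rw [hvq, norm_zero] at h1
    have h2 : 1 - 55 * ε ≤ (inner ℝ (F q t) (L y) : ℝ) ^ 2 := by linarith
    -- the sign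
    obtain ⟨s, -, hmu⟩ := hMUJ 2 N M J F c χ hs
    obtain ⟨hfin, -, hint⟩ := hmu t ht
    have hpos : -(ε / 2) ≤ (inner ℝ (F q t) (L y) : ℝ) := by
      by_contra hcon
      push Not at hcon
      have hfv := (hFVJ 2 N M J F c χ hs t ht (fun _ => L y) contMDiff_const).2
      have hfv2 : ∫ q, (inner ℝ (HH (n := 2) F q t) (L y) : ℝ) ∂muM 2 F c χ t = 0 := by
        rw [← hfv]
        congr 1
        funext p
        rw [rnd_dconst, zero_add]
      have hfinI : IsFiniteMeasure (muM 2 F c χ t) := ⟨hfin⟩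
      obtain ⟨δ', hδ'⟩ : ∃ δ' : ℝ, δ' = -ε - 2 * inner ℝ (F q t) (L y) := ⟨_, rfl⟩
      have hδ0 : 0 < δ' := by rw [hδ']; linarith
      have hlow : ∀ p, δ' ≤ (inner ℝ (HH (n := 2) F p t) (L y) : ℝ) := by
        intro p
        have h3 : (inner ℝ (HH (n := 2) F p t + (2 : ℝ) • F p t) (L y) : ℝ) =
            inner ℝ (HH (n := 2) F p t) (L y) + 2 * inner ℝ (F p t) (L y) := by
          rw [inner_add_left, inner_smul_left]
          rfl
        have h4 := abs_real_inner_le_norm (HH (n := 2) F p t + (2 : ℝ) • F p t) (L y)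
        rw [he, mul_one] at h4
        have h5 := (abs_le.1 (h4.trans (hH p))).1
        rw [h3] at h5
        rw [hδ']
        linarith [hqm p]
      have h6 : ∫ _p : M, δ' ∂muM 2 F c χ t ≤
          ∫ q, (inner ℝ (HH (n := 2) F q t) (L y) : ℝ) ∂muM 2 F c χ t :=
        integral_mono (integrable_const _) (hint _ hψc).1 hlow
      rw [hfv2, integral_const, smul_eq_mul] at h6
      have h7 : (muM 2 F c χ t).real univ ≤ 0 := by
        by_contra hcc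
        push Not at hcc
        exact absurd h6 (not_le.2 (mul_pos hcc hδ0))
      have h8 : (muM 2 F c χ t).real univ = 0 := le_antisymm h7 measureReal_nonneg
      have h9 : muM 2 F c χ t univ = 0 := by
        rw [measureReal_eq_zero_iff] at h8
        exact h8
      have h10 : muM 2 F c χ t = 0 := Measure.measure_univ_eq_zero.1 h9
      have h11 := hSIM N M J F c χ hs t ht (fun _ => 1) (fun _ => 0) contMDiff_const
        continuous_const (fun _ => zero_le_one) (fun q => by rw [rnd_gconst, norm_zero]) p₀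
      rw [h10] at h11
      simp only [integral_zero_measure, lintegral_zero_measure, mul_zero, add_zero,
        ENNReal.ofReal_zero, nonpos_iff_eq_zero, mul_one, ENNReal.ofReal_eq_zero] at h11
      have := Real.pi_pos
      linarith
    refine ⟨q, hηle _ ?_⟩
    have h3 : ‖F q t - L y‖ ^ 2 = ‖F q t‖ ^ 2 - 2 * inner ℝ (F q t) (L y) + 1 := by
      rw [norm_sub_sq_real, he]
      ring
    have h4 : ‖F q t‖ ^ 2 ≤ (1 + ε) ^ 2 := pow_le_pow_left₀ (norm_nonneg _) (hFn q).2 2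
    obtain ⟨φ, hφ⟩ : ∃ φ : ℝ, φ = inner ℝ (F q t) (L y) := ⟨_, rfl⟩
    rw [h3]
    rw [← hφ] at hpos h2 ⊢
    have h5 : 1 - 55 * ε ≤ φ := by
      by_contra hcc
      push Not at hcc
      by_cases hφ0 : 0 ≤ φ
      · nlinarith
      · push Not at hφ0
        nlinarith
    nlinarith

end Helper26.MS
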