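import Pool.Agent.Helper35.MS.StE
import Pool.Agent.Helper21.CL.M_MR

set_option autoImplicit false

namespace Helper26.MS

open Helper35.MS Helper35.PI Helper35.PI2 Helper32.CL Pool.Agent.Helper21.CL
open scoped ContDiff Manifold Topology ENNReal BigOperators
open MeasureTheory Set Filter

/-- telescoping with a threshold -/
lemma tele (φ : ℕ → ℝ) (hφ : Antitone φ) (hφ0 : ∀ j, 0 ≤ φ j) (v : ℝ) (hv : 0 ≤ v)
    (P : ℕ → Prop) [DecidablePred P] (hP : ∀ j, P j → φ j ≤ v) (n : ℕ) :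
    ∑ j ∈ Finset.range n, (if P j then φ j - φ (j + 1) else 0) ≤ v := by
  have h1 : ∑ j ∈ Finset.range n, (if P j then φ j - φ (j + 1) else 0) ≤
      ∑ j ∈ Finset.range n, (min v (φ j) - min v (φ (j + 1))) := by
    apply Finset.sum_le_sum
    intro j _
    have h2 : φ (j + 1) ≤ φ j := hφ (Nat.le_succ j)
    split_ifs with h
    · rw [min_eq_right (hP j h), min_eq_right (h2.trans (hP j h))]
    · exact sub_nonneg.2 (min_le_min_left _ h2)
  rw [Finset.sum_range_sub'] at h1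
  have h3 : 0 ≤ min v (φ n) := le_min hv (hφ0 n)
  have h4 : min v (φ 0) ≤ v := min_le_left _ _
  linarith

/-- the sum -/
lemma gsum (x θ : ℝ) (n : ℕ) :
    ∑ j ∈ Finset.range n, 2 * θ * (1 - x ^ 2) * (x ^ j - x ^ (2 * j)) =
      2 * θ * (x - x ^ n - x ^ (n + 1) + x ^ (2 * n)) := by
  induction n with
  | zero => simp
  | succ n ih =>
    rw [Finset.sum_range_succ, ih]
    ring

/-- lower bound for one scale -/
lemma lowS {M : Type} [MeasurableSpace M] (μ : Measure M) (U : Set M) (hU : MeasurableSet U)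
    (ρ : M → ℝ) (hρ : Measurable ρ) (hρ0 : ∀ p, 0 ≤ ρ p) (ε θ x : ℝ) (hε : 0 < ε) (hθ : 0 ≤ θ)
    (hx0 : 0 < x) (hx1 : x < 1) (n : ℕ)
    (hm : ∀ j ∈ Finset.range n, ENNReal.ofReal (θ * (ε * Real.sqrt ((x ^ j)⁻¹ - 1)) ^ 2) ≤
      μ (U ∩ {p | ρ p ≤ ε * Real.sqrt ((x ^ j)⁻¹ - 1)})) :
    ENNReal.ofReal (2 * θ * (x - x ^ n - x ^ (n + 1) + x ^ (2 * n))) ≤
      ∫⁻ p in U, ENNReal.ofReal (2 * ε ^ 2 / (ρ p ^ 2 + ε ^ 2) ^ 2) ∂μ := by
  classical
  have hu : ∀ j : ℕ, 0 ≤ (x ^ j)⁻¹ - 1 := by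
    intro j
    have h1 : x ^ j ≤ 1 := pow_le_one₀ hx0.le hx1.le
    have h2 : 1 ≤ (x ^ j)⁻¹ := (one_le_inv₀ (pow_pos hx0 j)).2 h1
    linarith
  obtain ⟨φ, hφ⟩ : ∃ φ : ℕ → ℝ, φ = fun j => 2 / ε ^ 2 * (x ^ j) ^ 2 := ⟨_, rfl⟩
  have hφj : ∀ j, φ j = 2 / ε ^ 2 * (x ^ j) ^ 2 := fun j => by rw [hφ]
  have hφa : Antitone φ := by
    apply antitone_nat_of_succ_le
    intro j
    rw [hφj, hφj]
    apply mul_le_mul_of_nonneg_left _ (by positivity)
    apply pow_le_pow_left₀ (by positivity)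
    rw [pow_succ]
    exact mul_le_of_le_one_right (by positivity) hx1.le
  have hφ0 : ∀ j, 0 ≤ φ j := fun j => by
    rw [hφj]
    positivity
  have hc0 : ∀ j, 0 ≤ φ j - φ (j + 1) := fun j => sub_nonneg.2 (hφa (Nat.le_succ j))
  obtain ⟨r, hr⟩ : ∃ r : ℕ → ℝ, r = fun j => ε * Real.sqrt ((x ^ j)⁻¹ - 1) := ⟨_, rfl⟩
  have hrj : ∀ j, r j = ε * Real.sqrt ((x ^ j)⁻¹ - 1) := fun j => by rw [hr]
  have hr2 : ∀ j, r j ^ 2 = ε ^ 2 * ((x ^ j)⁻¹ - 1) := fun j => by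
    rw [hrj, mul_pow, Real.sq_sqrt (hu j)]
  have hr0 : ∀ j, 0 ≤ r j := fun j => by
    rw [hrj]
    positivity
  have hS : ∀ j, MeasurableSet {p | ρ p ≤ r j} := fun j => measurableSet_le hρ measurable_const
  -- pointwise
  have hpt : ∀ p, ∑ j ∈ Finset.range n,
      ({p | ρ p ≤ r j} : Set M).indicator (fun _ => ENNReal.ofReal (φ j - φ (j + 1))) p ≤
      ENNReal.ofReal (2 * ε ^ 2 / (ρ p ^ 2 + ε ^ 2) ^ 2) := by
    intro p
    have hD : 0 < ρ p ^ 2 + ε ^ 2 := by positivity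
    have e1 : ∀ j, ({p | ρ p ≤ r j} : Set M).indicator
        (fun _ => ENNReal.ofReal (φ j - φ (j + 1))) p =
        ENNReal.ofReal (if ρ p ≤ r j then φ j - φ (j + 1) else 0) := by
      intro j
      by_cases h : ρ p ≤ r j
      · rw [if_pos h, indicator_of_mem (show p ∈ {p | ρ p ≤ r j} from h)]
      · rw [if_neg h, indicator_of_notMem (show p ∉ {p | ρ p ≤ r j} from h), ENNReal.ofReal_zero]
    rw [Finset.sum_congr rfl fun j _ => e1 j]
    rw [← ENNReal.ofReal_sum_of_nonneg (fun j _ => by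
      split_ifs
      · exact hc0 j
      · exact le_rfl)]
    apply ENNReal.ofReal_le_ofReal
    apply tele φ hφa hφ0 _ (by positivity) (fun j => ρ p ≤ r j)
    intro j hj
    have h1 : ρ p ^ 2 ≤ r j ^ 2 := pow_le_pow_left₀ (hρ0 p) hj 2
    rw [hr2] at h1
    have hxj : 0 < x ^ j := pow_pos hx0 j
    have h2 : ρ p ^ 2 + ε ^ 2 ≤ ε ^ 2 * (x ^ j)⁻¹ := by
      have : ε ^ 2 * ((x ^ j)⁻¹ - 1) = ε ^ 2 * (x ^ j)⁻¹ - ε ^ 2 := by ring
      rw [this] at h1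
      linarith
    have h3 : (ρ p ^ 2 + ε ^ 2) * x ^ j ≤ ε ^ 2 := by
      rw [← div_eq_mul_inv, le_div_iff₀ hxj] at h2
      exact h2
    have h4 : ((ρ p ^ 2 + ε ^ 2) * x ^ j) ^ 2 ≤ (ε ^ 2) ^ 2 :=
      pow_le_pow_left₀ (by positivity) h3 2
    rw [hφj, le_div_iff₀ (pow_pos hD 2)]
    have h5 : 2 / ε ^ 2 * (x ^ j) ^ 2 * (ρ p ^ 2 + ε ^ 2) ^ 2 =
        2 / ε ^ 2 * ((ρ p ^ 2 + ε ^ 2) * x ^ j) ^ 2 := by ring
    rw [h5]
    calc 2 / ε ^ 2 * ((ρ p ^ 2 + ε ^ 2) * x ^ j) ^ 2 ≤ 2 / ε ^ 2 * (ε ^ 2) ^ 2 :=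
          mul_le_mul_of_nonneg_left h4 (by positivity)
      _ = 2 * ε ^ 2 := by field_simp
  -- the terms
  have hterm : ∀ j ∈ Finset.range n, 2 * θ * (1 - x ^ 2) * (x ^ j - x ^ (2 * j)) =
      (φ j - φ (j + 1)) * (θ * (ε * Real.sqrt ((x ^ j)⁻¹ - 1)) ^ 2) := by
    intro j _
    rw [← hrj, hr2, hφj, hφj]
    have hxj : x ^ j ≠ 0 := (pow_pos hx0 j).ne'
    have hε' : ε ≠ 0 := hε.ne'
    have e2 : x ^ (2 * j) = (x ^ j) ^ 2 := by rw [← pow_mul, mul_comm]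
    rw [e2]
    field_simp
    ring
  calc ENNReal.ofReal (2 * θ * (x - x ^ n - x ^ (n + 1) + x ^ (2 * n)))
      = ENNReal.ofReal (∑ j ∈ Finset.range n,
          (φ j - φ (j + 1)) * (θ * (ε * Real.sqrt ((x ^ j)⁻¹ - 1)) ^ 2)) := by
        rw [← gsum, Finset.sum_congr rfl hterm]
    _ = ∑ j ∈ Finset.range n, ENNReal.ofReal (φ j - φ (j + 1)) *
          ENNReal.ofReal (θ * (ε * Real.sqrt ((x ^ j)⁻¹ - 1)) ^ 2) := by
        rw [ENNReal.ofReal_sum_of_nonneg (fun j _ => mul_nonneg (hc0 j) (by positivity))]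
        refine Finset.sum_congr rfl fun j _ => ?_
        rw [ENNReal.ofReal_mul (hc0 j)]
    _ ≤ ∑ j ∈ Finset.range n, ENNReal.ofReal (φ j - φ (j + 1)) * μ (U ∩ {p | ρ p ≤ r j}) := by
        apply Finset.sum_le_sum
        intro j hj
        have := hm j hj
        rw [hrj j]
        gcongr
    _ = ∑ j ∈ Finset.range n, ∫⁻ p in U, ({p | ρ p ≤ r j} : Set M).indicator
          (fun _ => ENNReal.ofReal (φ j - φ (j + 1))) p ∂μ := by
        refine Finset.sum_congr rfl fun j _ => ?_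
        rw [lintegral_indicator_const (hS j), Measure.restrict_apply (hS j), inter_comm U]
    _ = ∫⁻ p in U, ∑ j ∈ Finset.range n, ({p | ρ p ≤ r j} : Set M).indicator
          (fun _ => ENNReal.ofReal (φ j - φ (j + 1))) p ∂μ := by
        rw [lintegral_finsetSum]
        intro j _
        exact measurable_const.indicator (hS j)
    _ ≤ _ := lintegral_mono hpt

/-- the measure theoretic part -/
lemma coreS {M : Type} [TopologicalSpace M] [MeasurableSpace M] [BorelSpace M] (μ : Measure M)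
    (hint : ∀ g : M → ℝ, Continuous g → Integrable g μ) (h a ρ : M → ℝ) (b : ℝ) (hb : 0 ≤ b)
    (hh : Continuous h) (ha : Continuous a) (hρ : Continuous ρ) (hh0 : ∀ p, 0 ≤ h p)
    (ha0 : ∀ p, 0 ≤ a p) (hρ0 : ∀ p, 0 ≤ ρ p) (q₀ : M)
    (hm : ∀ ε : ℝ, 0 < ε → ∫ p, h p * (2 * ε ^ 2 / (ρ p ^ 2 + ε ^ 2) ^ 2) ∂μ ≤
      b + ∫ p, a p * (ρ p / (ρ p ^ 2 + ε ^ 2)) ∂μ)
    (hSB : ∀ U ∈ 𝓝 q₀, ∀ η : ℝ, 0 < η → ∀ᶠ ε in 𝓝[>] (0 : ℝ),
      ENNReal.ofReal ((1 - η) * Real.pi * ε ^ 2) ≤ μ (U ∩ {p | ρ p ≤ ε})) :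
    ENNReal.ofReal (2 * Real.pi * h q₀) ≤
      ENNReal.ofReal b + ∫⁻ p, ENNReal.ofReal (a p / ρ p) ∂μ := by
  -- the main inequality
  have hmain : ∀ ε : ℝ, 0 < ε →
      ∫⁻ p, ENNReal.ofReal (h p * (2 * ε ^ 2 / (ρ p ^ 2 + ε ^ 2) ^ 2)) ∂μ ≤
        ENNReal.ofReal b + ∫⁻ p, ENNReal.ofReal (a p / ρ p) ∂μ := by
    intro ε hε
    have hden : ∀ p, 0 < ρ p ^ 2 + ε ^ 2 := fun p => by positivity
    have hLc : Continuous fun p => h p * (2 * ε ^ 2 / (ρ p ^ 2 + ε ^ 2) ^ 2) := by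
      apply Continuous.mul hh
      apply Continuous.div (by fun_prop) (by fun_prop)
      intro p
      exact (pow_pos (hden p) 2).ne'
    have hRc : Continuous fun p => a p * (ρ p / (ρ p ^ 2 + ε ^ 2)) := by
      apply Continuous.mul (by fun_prop)
      apply Continuous.div (by fun_prop) (by fun_prop)
      intro p
      exact (hden p).ne'
    have hLi := hint _ hLc
    have hRi := hint _ hRc
    have hL0 : ∀ p, 0 ≤ h p * (2 * ε ^ 2 / (ρ p ^ 2 + ε ^ 2) ^ 2) := fun p => by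
      have := hh0 p
      positivity
    have hR0 : ∀ p, 0 ≤ a p * (ρ p / (ρ p ^ 2 + ε ^ 2)) := fun p => by
      have := ha0 p
      have := hρ0 p
      positivity
    calc ∫⁻ p, ENNReal.ofReal (h p * (2 * ε ^ 2 / (ρ p ^ 2 + ε ^ 2) ^ 2)) ∂μ
        = ENNReal.ofReal (∫ p, h p * (2 * ε ^ 2 / (ρ p ^ 2 + ε ^ 2) ^ 2) ∂μ) :=
          (ofReal_integral_eq_lintegral_ofReal hLi (Eventually.of_forall hL0)).symm
      _ ≤ ENNReal.ofReal (b + ∫ p, a p * (ρ p / (ρ p ^ 2 + ε ^ 2)) ∂μ) :=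
          ENNReal.ofReal_le_ofReal (hm ε hε)
      _ = ENNReal.ofReal b + ENNReal.ofReal (∫ p, a p * (ρ p / (ρ p ^ 2 + ε ^ 2)) ∂μ) :=
          ENNReal.ofReal_add hb (integral_nonneg hR0)
      _ = ENNReal.ofReal b + ∫⁻ p, ENNReal.ofReal (a p * (ρ p / (ρ p ^ 2 + ε ^ 2))) ∂μ := by
          rw [ofReal_integral_eq_lintegral_ofReal hRi (Eventually.of_forall hR0)]
      _ ≤ ENNReal.ofReal b + ∫⁻ p, ENNReal.ofReal (a p / ρ p) ∂μ := by
          apply add_le_add le_rfl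
          apply lintegral_mono
          intro p
          apply ENNReal.ofReal_le_ofReal
          rw [div_eq_mul_inv (a p) (ρ p)]
          apply mul_le_mul_of_nonneg_left _ (ha0 p)
          rcases (hρ0 p).eq_or_lt with h0 | h0
          · rw [← h0]
            simp
          · rw [div_le_iff₀ (hden p)]
            have : (ρ p)⁻¹ * (ρ p ^ 2 + ε ^ 2) = ρ p + (ρ p)⁻¹ * ε ^ 2 := by
              field_simp
            rw [this]
            have : 0 ≤ (ρ p)⁻¹ * ε ^ 2 := by positivity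
            linarith
  -- lower bound for fixed parameters
  have hlow : ∀ η : ℝ, 0 < η → η < 1 → 0 ≤ h q₀ - η → ∀ n : ℕ,
      ENNReal.ofReal (h q₀ - η) * ENNReal.ofReal (2 * ((1 - η) * Real.pi) *
        ((1 - η) - (1 - η) ^ n - (1 - η) ^ (n + 1) + (1 - η) ^ (2 * n))) ≤
      ENNReal.ofReal b + ∫⁻ p, ENNReal.ofReal (a p / ρ p) ∂μ := by
    intro η hη hη1 h0 n
    have hUo : IsOpen {p | h q₀ - η < h p} := isOpen_lt continuous_const hh
    have hU : {p | h q₀ - η < h p} ∈ 𝓝 q₀ := hUo.mem_nhds (by simpa using hη)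
    have hx0 : 0 < 1 - η := by linarith
    have hx1 : 1 - η < 1 := by linarith
    have hθ : 0 ≤ (1 - η) * Real.pi := mul_nonneg hx0.le Real.pi_pos.le
    have hev : ∀ j ∈ Finset.range n, ∀ᶠ ε in 𝓝[>] (0 : ℝ),
        ENNReal.ofReal ((1 - η) * Real.pi * (ε * Real.sqrt (((1 - η) ^ j)⁻¹ - 1)) ^ 2) ≤
        μ ({p | h q₀ - η < h p} ∩ {p | ρ p ≤ ε * Real.sqrt (((1 - η) ^ j)⁻¹ - 1)}) := by
      intro j _
      rcases Nat.eq_zero_or_pos j with hj | hj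
      · subst hj
        refine Eventually.of_forall fun ε => ?_
        simp
      · have hlt : (1 - η) ^ j < 1 := pow_lt_one₀ hx0.le hx1 hj.ne'
        have hs : 0 < Real.sqrt (((1 - η) ^ j)⁻¹ - 1) := by
          apply Real.sqrt_pos.2
          have : 1 < ((1 - η) ^ j)⁻¹ := (one_lt_inv₀ (pow_pos hx0 j)).2 hlt
          linarith
        have ht : Tendsto (fun ε : ℝ => ε * Real.sqrt (((1 - η) ^ j)⁻¹ - 1)) (𝓝[>] 0) (𝓝[>] 0) := by
          apply tendsto_nhdsWithin_iff.2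
          constructor
          · apply Tendsto.mono_left _ nhdsWithin_le_nhds
            have hc : Continuous fun ε : ℝ => ε * Real.sqrt (((1 - η) ^ j)⁻¹ - 1) := by fun_prop
            have := hc.tendsto 0
            rwa [zero_mul] at this
          · filter_upwards [self_mem_nhdsWithin] with ε hε
            exact mul_pos hε hs
        exact ht.eventually (hSB _ hU η hη)
    have hev2 := (Finset.eventually_all (Finset.range n)).2 hev
    obtain ⟨ε, hε1, hε0⟩ := (hev2.and self_mem_nhdsWithin).exists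
    have hε : 0 < ε := hε0
    refine le_trans ?_ (hmain ε hε)
    have h1 := lowS μ {p | h q₀ - η < h p} hUo.measurableSet ρ hρ.measurable hρ0 ε
      ((1 - η) * Real.pi) (1 - η) hε hθ hx0 hx1 n hε1
    have hmeas : Measurable fun p => ENNReal.ofReal (2 * ε ^ 2 / (ρ p ^ 2 + ε ^ 2) ^ 2) := by
      apply ENNReal.measurable_ofReal.comp
      apply Continuous.measurable
      apply Continuous.div (by fun_prop) (by fun_prop)
      intro p
      have : 0 < ρ p ^ 2 + ε ^ 2 := by positivity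
      exact (pow_pos this 2).ne'
    calc ENNReal.ofReal (h q₀ - η) * ENNReal.ofReal (2 * ((1 - η) * Real.pi) *
          ((1 - η) - (1 - η) ^ n - (1 - η) ^ (n + 1) + (1 - η) ^ (2 * n)))
        ≤ ENNReal.ofReal (h q₀ - η) * ∫⁻ p in {p | h q₀ - η < h p},
            ENNReal.ofReal (2 * ε ^ 2 / (ρ p ^ 2 + ε ^ 2) ^ 2) ∂μ := by gcongr
      _ = ∫⁻ p in {p | h q₀ - η < h p}, ENNReal.ofReal (h q₀ - η) *
            ENNReal.ofReal (2 * ε ^ 2 / (ρ p ^ 2 + ε ^ 2) ^ 2) ∂μ :=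
          (lintegral_const_mul _ hmeas).symm
      _ ≤ ∫⁻ p in {p | h q₀ - η < h p},
            ENNReal.ofReal (h p * (2 * ε ^ 2 / (ρ p ^ 2 + ε ^ 2) ^ 2)) ∂μ := by
          apply setLIntegral_mono' hUo.measurableSet
          intro p hp
          have hp' : h q₀ - η < h p := hp
          rw [← ENNReal.ofReal_mul h0]
          apply ENNReal.ofReal_le_ofReal
          exact mul_le_mul_of_nonneg_right hp'.le (by positivity)
      _ ≤ _ := setLIntegral_le_lintegral _ _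
  -- limit in n
  have hlow2 : ∀ η : ℝ, 0 < η → η < 1 →
      ENNReal.ofReal ((h q₀ - η) * (2 * ((1 - η) * Real.pi) * (1 - η))) ≤
      ENNReal.ofReal b + ∫⁻ p, ENNReal.ofReal (a p / ρ p) ∂μ := by
    intro η hη hη1
    rcases le_or_gt (h q₀ - η) 0 with h0 | h0
    · have h1 : (h q₀ - η) * (2 * ((1 - η) * Real.pi) * (1 - η)) ≤ 0 := by
        apply mul_nonpos_of_nonpos_of_nonneg h0
        have : 0 ≤ 1 - η := by linarith
        have := Real.pi_pos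
        positivity
      rw [ENNReal.ofReal_of_nonpos h1]
      exact zero_le
    · have hx0 : 0 ≤ 1 - η := by linarith
      have hx1 : 1 - η < 1 := by linarith
      have t1 : Tendsto (fun n : ℕ => (1 - η) ^ n) atTop (𝓝 0) :=
        tendsto_pow_atTop_nhds_zero_of_lt_one hx0 hx1
      have t2 : Tendsto (fun n : ℕ => (1 - η) ^ (n + 1)) atTop (𝓝 0) :=
        t1.comp (tendsto_add_atTop_nat 1)
      have t3 : Tendsto (fun n : ℕ => (1 - η) ^ (2 * n)) atTop (𝓝 0) := by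
        have : Tendsto (fun n : ℕ => 2 * n) atTop atTop :=
          tendsto_id.const_mul_atTop' (by norm_num)
        exact t1.comp this
      have t4 : Tendsto (fun n : ℕ => (h q₀ - η) * (2 * ((1 - η) * Real.pi) *
          ((1 - η) - (1 - η) ^ n - (1 - η) ^ (n + 1) + (1 - η) ^ (2 * n)))) atTop
          (𝓝 ((h q₀ - η) * (2 * ((1 - η) * Real.pi) * (1 - η)))) := by
        have := (((((tendsto_const_nhds (x := (1 - η))).sub t1).sub t2).add t3).const_mul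
          (2 * ((1 - η) * Real.pi))).const_mul (h q₀ - η)
        simpa using this
      have t5 := (ENNReal.continuous_ofReal.tendsto _).comp t4
      refine le_of_tendsto t5 (Eventually.of_forall fun n => ?_)
      have := hlow η hη hη1 h0.le n
      rw [← ENNReal.ofReal_mul h0.le] at this
      exact this
  have t6 : Tendsto (fun η : ℝ => ENNReal.ofReal
      ((h q₀ - η) * (2 * ((1 - η) * Real.pi) * (1 - η)))) (𝓝[>] 0)
      (𝓝 (ENNReal.ofReal (2 * Real.pi * h q₀))) := by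
    apply Tendsto.mono_left _ nhdsWithin_le_nhds
    have hc : Continuous fun η : ℝ => ENNReal.ofReal
      ((h q₀ - η) * (2 * ((1 - η) * Real.pi) * (1 - η))) :=
      ENNReal.continuous_ofReal.comp (by fun_prop)
    have := hc.tendsto 0
    have e : (h q₀ - 0) * (2 * ((1 - 0) * Real.pi) * (1 - 0)) = 2 * Real.pi * h q₀ := by ring
    rwa [e] at this
  refine le_of_tendsto t6 ?_
  have hlt : ∀ᶠ η in 𝓝[>] (0 : ℝ), η < 1 :=
    nhdsWithin_le_nhds (Iio_mem_nhds one_pos)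
  filter_upwards [self_mem_nhdsWithin, hlt] with η hη hη1
  exact hlow2 η hη hη1

/-- the pointwise inequality -/
lemma pwS {V : Type} [NormedAddCommGroup V] [InnerProductSpace ℝ V] (g H v : V) (h k ρ r ε : ℝ)
    (hv : ‖v‖ = ρ) (hh : 0 ≤ h) (hg : ‖g‖ ≤ k) (hr : r ≤ ρ ^ 2)
    (hH : (inner ℝ H v : ℝ) ^ 2 ≤ ‖H‖ ^ 2 * (ρ ^ 2 - r)) (hε : 0 < ε) :
    h * (2 * ε ^ 2 / (ρ ^ 2 + ε ^ 2) ^ 2) - (1 / 8 * (h * ‖H‖ ^ 2) +
        k * (ρ / (ρ ^ 2 + ε ^ 2))) ≤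
      h * (2 * (ρ ^ 2 + ε ^ 2)⁻¹ + 2 * -((ρ ^ 2 + ε ^ 2) ^ 2)⁻¹ * r)
          + (ρ ^ 2 + ε ^ 2)⁻¹ * inner ℝ g v
          + h * ((ρ ^ 2 + ε ^ 2)⁻¹ * inner ℝ H v) := by
  have hρ0 : 0 ≤ ρ := hv ▸ norm_nonneg v
  have hg1 : |(inner ℝ g v : ℝ)| ≤ k * ρ := by
    have := abs_real_inner_le_norm g v
    rw [hv] at this
    exact this.trans (mul_le_mul_of_nonneg_right hg hρ0)
  obtain ⟨D, hD⟩ : ∃ D, D = ρ ^ 2 + ε ^ 2 := ⟨_, rfl⟩
  have hD0 : 0 < D := by rw [hD]; positivity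
  rw [← hD]
  have hDi : 0 < D⁻¹ := inv_pos.2 hD0
  have f1 : -(k * ρ) ≤ inner ℝ g v := (abs_le.1 hg1).1
  obtain ⟨A, hA⟩ : ∃ A, A = (ρ ^ 2 - r) / D ^ 2 := ⟨_, rfl⟩
  have hA0 : 0 ≤ A := by
    rw [hA]
    exact div_nonneg (by linarith) (by positivity)
  have f2 : (D⁻¹ * inner ℝ H v) ^ 2 ≤ (2 * A + ‖H‖ ^ 2 / 8) ^ 2 := by
    have e1 : (D⁻¹ * inner ℝ H v) ^ 2 = (inner ℝ H v : ℝ) ^ 2 / D ^ 2 := by
      rw [mul_pow, inv_pow]
      ring
    have e2 : (inner ℝ H v : ℝ) ^ 2 / D ^ 2 ≤ ‖H‖ ^ 2 * (ρ ^ 2 - r) / D ^ 2 :=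
      div_le_div_of_nonneg_right hH (by positivity)
    have e3 : ‖H‖ ^ 2 * (ρ ^ 2 - r) / D ^ 2 = ‖H‖ ^ 2 * A := by
      rw [hA, mul_div_assoc]
    rw [e1]
    refine e2.trans ?_
    rw [e3]
    nlinarith [sq_nonneg (2 * A - ‖H‖ ^ 2 / 8)]
  have f3 : -(2 * A + ‖H‖ ^ 2 / 8) ≤ D⁻¹ * inner ℝ H v := by
    have hpos : 0 ≤ 2 * A + ‖H‖ ^ 2 / 8 := by positivity
    exact (abs_le.1 (abs_le_of_sq_le_sq f2 hpos)).1
  have f4 : h * -(2 * A + ‖H‖ ^ 2 / 8) ≤ h * (D⁻¹ * inner ℝ H v) :=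
    mul_le_mul_of_nonneg_left f3 hh
  have f5 : -(k * ρ) * D⁻¹ ≤ D⁻¹ * inner ℝ g v := by
    rw [mul_comm D⁻¹]
    exact mul_le_mul_of_nonneg_right f1 hDi.le
  have f6 : 2 * D⁻¹ + 2 * -(D ^ 2)⁻¹ * r = 2 * ε ^ 2 / D ^ 2 + 2 * A := by
    have e1 : 2 * D⁻¹ + 2 * -(D ^ 2)⁻¹ * r = (2 * D - 2 * r) / D ^ 2 := by
      field_simp
      ring
    rw [e1, hA, ← mul_div_assoc, ← add_div]
    congr 1
    rw [hD]
    ring
  rw [f6]
  have f7 : k * (ρ / D) = -(-(k * ρ) * D⁻¹) := by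
    rw [div_eq_mul_inv]
    ring
  rw [f7]
  linarith

/-- slices of functions which are continuous on space time -/
lemma slJ {M E : Type} [TopologicalSpace M] [TopologicalSpace E] (J : Set ℝ) (G : M → ℝ → E)
    (hG : CSTJ J G) (t : ℝ) (ht : t ∈ J) : Continuous fun q => G q t := by
  have hslice : Continuous (fun q : M => ((q, t) : M × ℝ)) := by fun_prop
  have hmaps : ∀ q : M, ((q, t) : M × ℝ) ∈ (univ : Set M) ×ˢ J := fun q => ⟨mem_univ _, ht⟩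
  exact ContinuousOn.comp_continuous hG hslice hmaps

/-- the geometric part -/
lemma geoS {N : ℕ} {M : Type} [TopologicalSpace M] [T2Space M] [CompactSpace M]
    [MeasurableSpace M] [BorelSpace M] [ChartedSpace (EE 2) M] [IsManifold (𝓡 2) ∞ M]
    (hFV : StFVJ) (hPR : StPRJ) (J : Set ℝ)
    (F : M → ℝ → EE N) (c : ℕ → M) (χ : ℕ → M → ℝ) (hS : SetupJ 2 J F c χ) (t : ℝ) (ht : t ∈ J)
    (hint : ∀ g : M → ℝ, Continuous g → Integrable g (muM 2 F c χ t))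
    (hF : Continuous (fun q => F q t)) (hH : Continuous (fun q => HH (n := 2) F q t))
    (h k : M → ℝ) (hh : ContMDiff (𝓡 2) 𝓘(ℝ, ℝ) 1 h) (hk : Continuous k) (hh0 : ∀ q, 0 ≤ h q)
    (hgk : ∀ q, ‖gdM 2 F t h q‖ ≤ k q) (q₀ : M) (ε : ℝ) (hε : 0 < ε) :
    ∫ p, h p * (2 * ε ^ 2 / (‖F p t - F q₀ t‖ ^ 2 + ε ^ 2) ^ 2) ∂muM 2 F c χ t ≤
      1 / 8 * (∫ p, h p * YF F p t ∂muM 2 F c χ t) + ∫ p, k p *
        (‖F p t - F q₀ t‖ / (‖F p t - F q₀ t‖ ^ 2 + ε ^ 2)) ∂muM 2 F c χ t := by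
  have hb : (0:ℝ) < ε ^ 2 := by positivity
  have hhc : Continuous h := hh.continuous
  have hρc : Continuous (fun q => ‖F q t - F q₀ t‖) := (hF.sub continuous_const).norm
  have hden : ∀ p, 0 < ‖F p t - F q₀ t‖ ^ 2 + ε ^ 2 := fun p => by positivity
  obtain ⟨hPR1, -, -, -, hPR2⟩ := hPR 2 N M J F hS.mcf t ht
  obtain ⟨r, hr, -, hrX⟩ := hPR2 (F q₀ t)
  obtain ⟨hXs, -, -, hXd⟩ := hrX (zt (ε ^ 2)) (zt_contDiff hb)
  have hXX : ContMDiff (𝓡 2) 𝓘(ℝ, EE N) 1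
      (fun q => h q • (zt (ε ^ 2) (‖F q t - F q₀ t‖ ^ 2) • (F q t - F q₀ t))) := hh.smul hXs
  obtain ⟨hdc, hd0⟩ := hFV 2 N M J F c χ hS t ht _ hXX
  have hLc : Continuous fun p => h p * (2 * ε ^ 2 / (‖F p t - F q₀ t‖ ^ 2 + ε ^ 2) ^ 2) := by
    apply Continuous.mul hhc
    apply Continuous.div continuous_const (((hρc.pow 2).add continuous_const).pow 2)
    intro p
    exact (pow_pos (hden p) 2).ne'
  have hYc : Continuous fun p => h p * YF F p t := by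
    unfold YF
    exact hhc.mul (hH.norm.pow 2)
  have hRc : Continuous fun p => k p *
      (‖F p t - F q₀ t‖ / (‖F p t - F q₀ t‖ ^ 2 + ε ^ 2)) := by
    apply Continuous.mul hk
    apply Continuous.div hρc ((hρc.pow 2).add continuous_const)
    intro p
    exact (hden p).ne'
  have hIc : Continuous fun p => dvg (n := 2) F
      (fun q => h q • (zt (ε ^ 2) (‖F q t - F q₀ t‖ ^ 2) • (F q t - F q₀ t))) p t +
      inner ℝ (HH (n := 2) F p t) (h p • (zt (ε ^ 2) (‖F p t - F q₀ t‖ ^ 2) • (F p t - F q₀ t))) :=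
    hdc.add (Continuous.inner (𝕜 := ℝ) hH hXX.continuous)
  have hLi := hint _ hLc
  have hYi := (hint _ hYc).const_mul (1 / 8)
  have hRi := hint _ hRc
  have hIi := hint _ hIc
  have hsum : Integrable (fun p => 1 / 8 * (h p * YF F p t) + k p *
      (‖F p t - F q₀ t‖ / (‖F p t - F q₀ t‖ ^ 2 + ε ^ 2))) (muM 2 F c χ t) := hYi.add hRi
  have h1 : ∫ p, (h p * (2 * ε ^ 2 / (‖F p t - F q₀ t‖ ^ 2 + ε ^ 2) ^ 2) -
      (1 / 8 * (h p * YF F p t) + k p *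
      (‖F p t - F q₀ t‖ / (‖F p t - F q₀ t‖ ^ 2 + ε ^ 2)))) ∂muM 2 F c χ t ≤ 0 := by
    rw [← hd0]
    apply integral_mono (hLi.sub hsum) hIi
    intro p
    have hz : zt (ε ^ 2) (‖F p t - F q₀ t‖ ^ 2) = (‖F p t - F q₀ t‖ ^ 2 + ε ^ 2)⁻¹ :=
      zt_eq hb (by positivity)
    have hz' : deriv (zt (ε ^ 2)) (‖F p t - F q₀ t‖ ^ 2) =
      -((‖F p t - F q₀ t‖ ^ 2 + ε ^ 2) ^ 2)⁻¹ := zt_deriv hb (by positivity)
    have e1 := hPR1 h hh _ hXs p
    have e2 := hXd p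
    rw [hz, hz'] at e2
    refine le_trans (pwS (gdM 2 F t h p) (HH (n := 2) F p t) (F p t - F q₀ t) (h p) (k p)
      ‖F p t - F q₀ t‖ (r p) ε rfl (hh0 p) (hgk p) (hr p).2.1 (hr p).2.2 hε) (le_of_eq ?_)
    show _ = dvg (n := 2) F
      (fun q => h q • (zt (ε ^ 2) (‖F q t - F q₀ t‖ ^ 2) • (F q t - F q₀ t))) p t +
      inner ℝ (HH (n := 2) F p t) (h p • (zt (ε ^ 2) (‖F p t - F q₀ t‖ ^ 2) • (F p t - F q₀ t)))
    rw [e1, e2, hz, inner_smul_right, inner_smul_right, inner_smul_right]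
    push_cast
    ring
  rw [integral_sub hLi hsum, integral_add hYi hRi, integral_const_mul] at h1
  linarith

/-- SIM. -/
theorem hSIM (hPRJ : StPRJ) (hFVJ : StFVJ) (hSBJ : StSBJ) (hMUJ : StMUJ) (hI4J : StI4J) :
    StSIM := by
  intro N M _ _ _ _ _ _ _ J F c χ hS t ht h k hh hk hh0 hgk q₀
  obtain ⟨i1, i2, -, -⟩ := hI4J 2 N M J F hS.mcf
  have hF : Continuous (fun q => F q t) := slJ J F i1 t ht
  have hH : Continuous (fun q => HH (n := 2) F q t) := slJ J (HH (n := 2) F) i2 t ht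
  have hhc : Continuous h := hh.continuous
  have hint' : ∀ g : M → ℝ, Continuous g → Integrable g (muM 2 F c χ t) := by
    obtain ⟨s, hs0, hs⟩ := hMUJ 2 N M J F c χ hS
    exact fun g hg => ((hs t ht).2.2 g hg).1
  have hρc : Continuous (fun p => ‖F p t - F q₀ t‖) := (hF.sub continuous_const).norm
  have hk0 : ∀ p, 0 ≤ k p := fun p => le_trans (norm_nonneg _) (hgk p)
  have hg := fun ε hε => geoS hFVJ hPRJ J F c χ hS t ht hint' hF hH h k hh hk hh0 hgk q₀ ε hε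
  have hsb := hSBJ N M J F c χ hS t ht q₀
  have hI0 : 0 ≤ ∫ p, h p * YF F p t ∂muM 2 F c χ t := by
    apply integral_nonneg
    intro p
    have := hh0 p
    change 0 ≤ h p * YF F p t
    unfold YF
    positivity
  have hb : 0 ≤ 1 / 8 * ∫ p, h p * YF F p t ∂muM 2 F c χ t := by positivity
  have hfin := coreS (muM 2 F c χ t) hint' h k _ _ hb hhc hk hρc hh0 hk0
    (fun p => norm_nonneg _) q₀ hg hsb
  have h8 : (8 : ℝ≥0∞) = ENNReal.ofReal 8 := by norm_num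
  calc ENNReal.ofReal (16 * Real.pi * h q₀)
      = 8 * ENNReal.ofReal (2 * Real.pi * h q₀) := by
        rw [h8, ← ENNReal.ofReal_mul (by norm_num)]
        congr 1
        ring
    _ ≤ 8 * (ENNReal.ofReal (1 / 8 * ∫ p, h p * YF F p t ∂muM 2 F c χ t) +
          ∫⁻ p, ENNReal.ofReal (k p / ‖F p t - F q₀ t‖) ∂muM 2 F c χ t) := by gcongr
    _ = _ := by
        rw [mul_add]
        congr 1
        rw [h8, ← ENNReal.ofReal_mul (by norm_num)]
        congr 1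
        ring

end Helper26.MS
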